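import Mathlib

set_option autoImplicit false

/-!
# A rank bound for vectors, in an abstract setting
-/

namespace Pool.Agent.U945.RD

open Module

/-- the hyperplane theorem for a space `S` -/
def HypK (K : Type*) {L : Type*} [Field K] [Field L] [Algebra K L] (S : Submodule K L) : Prop :=
  ∀ (d l : ℕ) (x : Fin d → L) (a : Fin d → Fin l → L), LinearIndependent K x →
    (∀ i j, a i j ∈ S) → (∀ j, ∑ i, x i * a i j = 0) →
    LinearIndependent K (fun j i => a i j) → l ≤ d * (d - 1)

/-- the linear form with coefficients `lam` -/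
def lin {K L : Type*} [Field K] [Field L] [Algebra K L] {d : ℕ} (lam : Fin d → L) :
    (Fin d → L) →ₗ[K] L where
  toFun w := ∑ i, lam i * w i
  map_add' u v := by
    simp only [Pi.add_apply, mul_add, Finset.sum_add_distrib]
  map_smul' c u := by
    simp only [Pi.smul_apply, mul_smul_comm, Finset.smul_sum, RingHom.id_apply]

/-- the rank bound -/
theorem abs_rank_vec {K L : Type*} [Field K] [Field L] [Algebra K L] {S : Submodule K L}
    (hS : HypK K S) (V : Submodule K L) [FiniteDimensional K V] {n d : ℕ} {w : Fin n → Fin d → L}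
    (hw : LinearIndependent K w) (hwS : ∀ j i, w j i ∈ S) {lam : Fin d → L}
    (hlam : LinearIndependent K (Fin.cons 1 lam : Fin (d + 1) → L))
    (hm : ∀ j, ∑ i, lam i * w j i ∈ S ⊔ V) : n ≤ finrank K V + (d + 1) * d := by
  by_contra hcon
  push Not at hcon
  set W : Submodule K (Fin d → L) := Submodule.span K (Set.range w) with hW
  have hfr : finrank K W = n := by
    rw [hW, finrank_span_eq_card hw, Fintype.card_fin]
  have : FiniteDimensional K W := by
    rw [hW]
    exact FiniteDimensional.span_of_finite K (Set.finite_range _)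
  set φ : W →ₗ[K] (L ⧸ S) := (S.mkQ.comp (lin lam)).comp W.subtype with hφ
  have hφa : ∀ w : W, φ w = S.mkQ (lin (K := K) lam (w : Fin d → L)) := fun w => rfl
  have hrange : LinearMap.range φ ≤ V.map S.mkQ := by
    rintro _ ⟨w, rfl⟩
    rw [hφa]
    have hw : ∀ z ∈ W, lin (K := K) lam z ∈ S ⊔ V := by
      intro z hz
      rw [hW] at hz
      induction hz using Submodule.span_induction with
      | mem z hz =>
        obtain ⟨i, rfl⟩ := hz
        exact hm i
      | zero => rw [map_zero]; exact zero_mem _
      | add a b _ _ ha hb => rw [map_add]; exact add_mem ha hb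
      | smul c a _ ha => rw [map_smul]; exact Submodule.smul_mem _ c ha
    obtain ⟨u, hu, v, hv, huv⟩ := Submodule.mem_sup.1 (hw w w.2)
    rw [← huv, map_add]
    have : S.mkQ u = 0 := by
      rw [Submodule.mkQ_apply]
      exact (Submodule.Quotient.mk_eq_zero S).2 hu
    rw [this, zero_add]
    exact Submodule.mem_map_of_mem hv
  have : FiniteDimensional K (V.map S.mkQ) := inferInstance
  have h1 : finrank K (LinearMap.range φ) ≤ finrank K V :=
    (Submodule.finrank_mono hrange).trans (Submodule.finrank_map_le _ _)
  have h2 := LinearMap.finrank_range_add_finrank_ker φ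
  rw [hfr] at h2
  have h3 : (d + 1) * d + 1 ≤ finrank K (LinearMap.ker φ) := by omega
  set T : Submodule K (Fin d → L) := (LinearMap.ker φ).map W.subtype with hT
  have h3' : (d + 1) * d + 1 ≤ finrank K T := by
    rw [hT, Submodule.finrank_map_subtype_eq]
    exact h3
  have hTW : ∀ t ∈ T, t ∈ W ∧ lin (K := K) lam t ∈ S := by
    intro t ht
    obtain ⟨w, hw, rfl⟩ := Submodule.mem_map.1 ht
    refine ⟨w.2, ?_⟩
    have h7 : φ w = 0 := LinearMap.mem_ker.1 hw
    rw [hφa, Submodule.mkQ_apply] at h7
    exact (Submodule.Quotient.mk_eq_zero S).1 h7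
  clear_value T
  obtain ⟨f, hf⟩ := exists_linearIndependent_of_le_finrank h3'
  have hWL : ∀ t ∈ W, ∀ i, t i ∈ S := by
    intro t ht
    rw [hW] at ht
    induction ht using Submodule.span_induction with
    | mem z hz =>
      obtain ⟨j, rfl⟩ := hz
      exact hwS j
    | zero => intro i; exact zero_mem _
    | add a b _ _ ha hb => intro i; exact add_mem (ha i) (hb i)
    | smul c a _ ha => intro i; exact Submodule.smul_mem _ c (ha i)
  have h5 : LinearIndependent K (fun j => (f j : Fin d → L)) :=
    hf.map' T.subtype (Submodule.ker_subtype _)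
  have h6 := hS (d + 1) ((d + 1) * d + 1) (Fin.cons 1 lam)
    (fun i j => (Fin.cons (-(lin (K := K) lam (f j : Fin d → L))) (f j : Fin d → L) :
      Fin (d + 1) → L) i) hlam
    (fun i j => by
      refine Fin.cases ?_ (fun i => ?_) i
      · rw [Fin.cons_zero]
        exact neg_mem (hTW _ (f j).2).2
      · rw [Fin.cons_succ]
        exact hWL _ (hTW _ (f j).2).1 i)
    (fun j => by
      rw [Fin.sum_univ_succ]
      simp only [Fin.cons_zero, Fin.cons_succ]
      have : lin (K := K) lam (f j : Fin d → L) = ∑ i, lam i * (f j : Fin d → L) i := rfl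
      rw [this]
      ring)
    (by
      refine LinearIndependent.of_comp (LinearMap.funLeft K L Fin.succ) ?_
      have e : (LinearMap.funLeft K L Fin.succ ∘ fun (j : Fin ((d + 1) * d + 1)) (i : Fin (d + 1)) =>
          (Fin.cons (-(lin (K := K) lam (f j : Fin d → L))) (f j : Fin d → L) :
            Fin (d + 1) → L) i) = fun j => (f j : Fin d → L) := by
        funext j i
        rfl
      rw [e]
      exact h5)
  rw [Nat.add_sub_cancel] at h6
  omega

end Pool.Agent.U945.RD
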