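import Pool.Agent.U945.AP.Gen
import Pool.Agent.U945.RD.Abs

set_option autoImplicit false

/-!
# The rank of the vectors of rational numbers whose logarithms are on a hyperplane modulo linear forms
-/

namespace Pool.Agent.U945.RD

open Module
open Pool.Agent.U945.AP (lg lg_mul lg_zpow lg_one lg_eq_zero alg_exp_lg)
open Pool.Agent.H301R2.SSE (QB mem_QB Lt Lt_one Lt_log Lg mem_Lg)

/-- the hyperplane theorem for logarithms -/
theorem hypK_Lt : HypK QB Lt := by
  intro d l x a hx ha hxa hcol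
  exact Pool.Agent.W254.HP.hyperplane d l x a hx ha hxa hcol

/-- Baker's theorem: rational linear functionals of the coefficients -/
lemma baker_phi {n : ℕ} (c : Fin n → QB) (mu : Fin n → ℂ) (hmu : ∀ j, mu j ∈ Lg)
    (h : ∑ j, (c j : ℂ) * mu j = 0) (φ : QB →ₗ[ℚ] ℚ) : ∑ j, (φ (c j) : ℂ) * mu j = 0 := by
  set M : Submodule ℚ ℂ := Submodule.span ℚ (Set.range mu) with hM
  have : FiniteDimensional ℚ M := by
    rw [hM]
    exact FiniteDimensional.span_of_finite ℚ (Set.finite_range _)
  set B := Module.finBasis ℚ M with hB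
  have hML : M ≤ Lg := by
    rw [hM, Submodule.span_le]
    rintro _ ⟨j, rfl⟩
    exact hmu j
  have hmem : ∀ j, mu j ∈ M := fun j => Submodule.subset_span ⟨j, rfl⟩
  set m : Fin n → Fin (finrank ℚ M) → ℚ := fun j l => B.repr ⟨mu j, hmem j⟩ l with hm
  have hrep : ∀ j, mu j = ∑ l, (m j l : ℂ) * (B l : ℂ) := by
    intro j
    have h1 := B.sum_repr ⟨mu j, hmem j⟩
    have h2 := congrArg (fun u : M => (u : ℂ)) h1
    simp only [Submodule.coe_sum, Submodule.coe_smul, Rat.smul_def] at h2
    exact h2.symm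
  have hBli : LinearIndependent ℚ (fun l => (B l : ℂ)) :=
    B.linearIndependent.map' M.subtype (Submodule.ker_subtype _)
  have h1 : ∑ l, (∑ j, (c j : ℂ) * (m j l : ℂ)) * (B l : ℂ) = 0 := by
    rw [← h]
    simp only [Finset.sum_mul]
    rw [Finset.sum_comm]
    apply Finset.sum_congr rfl
    intro j _
    conv_rhs => rw [hrep j, Finset.mul_sum]
    apply Finset.sum_congr rfl
    intro l _
    ring
  have h2 := (Pool.Agent.H297R2.baker_inhom (fun l => (B l : ℂ)) (fun l => mem_Lg.1 (hML (B l).2))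
    hBli 0 isAlgebraic_zero (fun l => ∑ j, (c j : ℂ) * (m j l : ℂ)) (fun l => by
      refine mem_QB.1 (sum_mem (fun j _ => mul_mem (c j).2 ?_))
      exact mem_QB.2 (isAlgebraic_algebraMap (m j l))) (by
      rw [zero_add]
      exact h1)).2
  have h3 : ∀ l, ∑ j, φ (c j) * m j l = 0 := by
    intro l
    have h4 : ∑ j, m j l • c j = 0 := by
      apply Subtype.ext
      push_cast
      rw [← h2 l]
      apply Finset.sum_congr rfl
      intro j _
      rw [Algebra.smul_def]
      have : (algebraMap ℚ ℂ) (m j l) = (m j l : ℂ) := rfl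
      rw [this]
      ring
    have h5 := congrArg φ h4
    rw [map_sum, map_zero] at h5
    rw [← h5]
    apply Finset.sum_congr rfl
    intro j _
    rw [map_smul, smul_eq_mul]
    ring
  calc ∑ j, (φ (c j) : ℂ) * mu j = ∑ j, (φ (c j) : ℂ) * ∑ l, (m j l : ℂ) * (B l : ℂ) :=
        Finset.sum_congr rfl (fun j _ => by rw [← hrep j])
    _ = ∑ l, ((∑ j, φ (c j) * m j l : ℚ) : ℂ) * (B l : ℂ) := by
        simp only [Finset.mul_sum]
        rw [Finset.sum_comm]
        apply Finset.sum_congr rfl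
        intro l _
        push_cast
        rw [Finset.sum_mul]
        apply Finset.sum_congr rfl
        intro j _
        ring
    _ = 0 := by
        apply Finset.sum_eq_zero
        intro l _
        rw [h3 l]
        simp

/-- Baker's theorem for vectors of logarithms -/
theorem baker_vec {n d : ℕ} {w : Fin n → Fin d → ℂ} (hw : ∀ j i, w j i ∈ Lg)
    (h : LinearIndependent ℚ w) : LinearIndependent QB w := by
  rw [Fintype.linearIndependent_iff]
  intro c hc j0
  by_contra hne
  obtain ⟨φ, hφ⟩ : ∃ φ : QB →ₗ[ℚ] ℚ, φ (c j0) ≠ 0 := by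
    by_contra hcon
    push Not at hcon
    exact hne ((Module.forall_dual_apply_eq_zero_iff ℚ (c j0)).1 hcon)
  rw [Fintype.linearIndependent_iff] at h
  apply hφ
  apply h (fun j => φ (c j))
  funext i
  have h1 := congrFun hc i
  rw [Finset.sum_apply] at h1
  rw [Finset.sum_apply]
  have h2 := baker_phi c (fun j => w j i) (fun j => hw j i) (by
    rw [← show (0 : Fin d → ℂ) i = 0 from rfl, ← h1]
    apply Finset.sum_congr rfl
    intro j _
    rfl) φ
  rw [← show (0 : Fin d → ℂ) i = 0 from rfl] at h2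
  rw [← h2]
  apply Finset.sum_congr rfl
  intro j _
  rw [Pi.smul_apply, Rat.smul_def]

/-- multiplicatively independent families of vectors -/
def MIv {n d : ℕ} (X : Fin n → Fin d → ℚ) : Prop :=
  ∀ k : Fin n → ℤ, (∀ i, ∏ j, X j i ^ k j = 1) → k = 0

lemma lg_prod {n : ℕ} (x : Fin n → ℚ) (hx : ∀ i, 0 < x i) (k : Fin n → ℤ) (s : Finset (Fin n)) :
    lg (∏ i ∈ s, x i ^ k i) = ∑ i ∈ s, (k i : ℂ) * lg (x i) := by
  classical
  induction s using Finset.induction_on with
  | empty => simp [lg_one]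
  | insert a s ha ih =>
    rw [Finset.prod_insert ha, Finset.sum_insert ha, lg_mul, lg_zpow, ih]
    · exact (zpow_pos (hx a) _).ne'
    · exact (Finset.prod_pos (fun i _ => zpow_pos (hx i) _)).ne'

lemma indep_vec {n d : ℕ} {X : Fin n → Fin d → ℚ} (hX : ∀ j i, 0 < X j i) (h : MIv X) :
    LinearIndependent ℚ (fun j i => lg (X j i)) := by
  rw [← LinearIndependent.iff_fractionRing ℤ ℚ, Fintype.linearIndependent_iff]
  intro g hg
  have h2 : ∀ i, ∏ j, X j i ^ g j = 1 := by
    intro i
    apply lg_eq_zero (Finset.prod_pos (fun j _ => zpow_pos (hX j i) _))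
    rw [lg_prod (fun j => X j i) (fun j => hX j i) g Finset.univ]
    have h1 := congrFun hg i
    rw [Finset.sum_apply] at h1
    rw [← show (0 : Fin d → ℂ) i = 0 from rfl, ← h1]
    apply Finset.sum_congr rfl
    intro j _
    rw [Pi.smul_apply, zsmul_eq_mul]
  intro j
  rw [h g h2]
  rfl

/-- sets of vectors of positive rational numbers of bounded rank -/
def BRv {d : ℕ} (Γ : Set (Fin d → ℚ)) : Prop :=
  (∀ x ∈ Γ, ∀ i, 0 < x i) ∧
    ∃ N : ℕ, ∀ (n : ℕ) (X : Fin n → Fin d → ℚ), (∀ j, X j ∈ Γ) → MIv X → n ≤ N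

theorem brv {d : ℕ} {lam : Fin d → ℂ} (hlam : LinearIndependent QB (Fin.cons 1 lam : Fin (d + 1) → ℂ))
    (V : Submodule QB ℂ) [FiniteDimensional QB V] :
    BRv {x : Fin d → ℚ | (∀ i, 0 < x i) ∧ ∑ i, lam i * lg (x i) ∈ Lt ⊔ V} := by
  refine ⟨fun x hx => hx.1, finrank QB V + (d + 1) * d, fun n X hX hmi => ?_⟩
  exact abs_rank_vec hypK_Lt V
    (baker_vec (fun j i => mem_Lg.2 (alg_exp_lg ((hX j).1 i))) (indep_vec (fun j i => (hX j).1 i) hmi))
    (fun j i => Lt_log (alg_exp_lg ((hX j).1 i))) hlam (fun j => (hX j).2)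

/-- only finitely many primes -/
theorem primes_finite_vec {d : ℕ} {Γ : Set (Fin d → ℚ)} (h : BRv Γ) :
    {p : ℕ | p.Prime ∧ ∃ x ∈ Γ, ∃ i, padicValRat p (x i) ≠ 0}.Finite := by
  classical
  obtain ⟨hpos, N, hN⟩ := h
  set A : Set ℕ := {n | ∃ X : Fin n → Fin d → ℚ, (∀ j, X j ∈ Γ) ∧ MIv X} with hA
  have hAf : A.Finite := (Set.finite_Iic N).subset (fun n ⟨x, hx, hx'⟩ => hN n x hx hx')
  have hAne : A.Nonempty := ⟨0, Fin.elim0, fun i => i.elim0, fun k _ => Subsingleton.elim _ _⟩
  obtain ⟨n, hn, hmax⟩ := hAf.exists_maximal hAne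
  obtain ⟨X, hX, hmi⟩ := hn
  have hfin : ∀ y : ℚ, y ≠ 0 → {p : ℕ | p.Prime ∧ padicValRat p y ≠ 0}.Finite := by
    intro y hy
    refine ((y.num.natAbs.primeFactors ∪ y.den.primeFactors : Finset ℕ).finite_toSet).subset ?_
    rintro p ⟨hp, hv⟩
    rw [Finset.mem_coe, Finset.mem_union, Nat.mem_primeFactors, Nat.mem_primeFactors]
    by_contra hcon
    push Not at hcon
    have h1 : ¬ p ∣ y.num.natAbs := fun hd => Int.natAbs_ne_zero.2 (Rat.num_ne_zero.2 hy)
      (hcon.1 hp hd)
    have h2 : ¬ p ∣ y.den := fun hd => y.den_nz (hcon.2 hp hd)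
    apply hv
    have : padicValRat p y = (padicValNat p y.num.natAbs : ℤ) - padicValNat p y.den := rfl
    rw [this, padicValNat.eq_zero_of_not_dvd h1, padicValNat.eq_zero_of_not_dvd h2]
    rfl
  refine (Set.finite_iUnion (fun j => Set.finite_iUnion
    (fun i => hfin (X j i) (hpos _ (hX j) i).ne'))).subset ?_
  rintro p ⟨hp, y, hy, i0, hv⟩
  have : Fact p.Prime := ⟨hp⟩
  by_contra hcon
  simp only [Set.mem_iUnion, Set.mem_ofPred_eq, not_exists, not_and, not_not] at hcon
  have hdep : ¬ MIv (Fin.snoc X y : Fin (n + 1) → Fin d → ℚ) := by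
    intro hmi'
    have hmem : n + 1 ∈ A := by
      refine ⟨Fin.snoc X y, fun j => ?_, hmi'⟩
      refine Fin.lastCases ?_ (fun j => ?_) j
      · rw [Fin.snoc_last]; exact hy
      · rw [Fin.snoc_castSucc]; exact hX j
    have := hmax hmem (by omega)
    omega
  unfold MIv at hdep
  push Not at hdep
  obtain ⟨k, hk, hk0⟩ := hdep
  have hk' : ∀ i, (∏ j : Fin n, X j i ^ k j.castSucc) * y i ^ k (Fin.last n) = 1 := by
    intro i
    have := hk i
    rw [Fin.prod_univ_castSucc] at this
    simp only [Fin.snoc_castSucc, Fin.snoc_last] at this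
    exact this
  have hy0 : y i0 ≠ 0 := (hpos y hy i0).ne'
  have hP : ∏ j : Fin n, X j i0 ^ k j.castSucc ≠ 0 :=
    Finset.prod_ne_zero_iff.2 (fun j _ => zpow_ne_zero _ (hpos _ (hX j) i0).ne')
  have hvP : padicValRat p (∏ j : Fin n, X j i0 ^ k j.castSucc) = 0 := by
    have : ∀ s : Finset (Fin n), padicValRat p (∏ j ∈ s, X j i0 ^ k j.castSucc) = 0 := by
      intro s
      induction s using Finset.induction_on with
      | empty => simp
      | insert a s ha ih =>
        rw [Finset.prod_insert ha, padicValRat.mul (zpow_ne_zero _ (hpos _ (hX a) i0).ne')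
          (Finset.prod_ne_zero_iff.2 (fun i _ => zpow_ne_zero _ (hpos _ (hX i) i0).ne')), ih,
          padicValRat.zpow, hcon a i0 hp, mul_zero, add_zero]
    exact this Finset.univ
  have h1 := congrArg (padicValRat p) (hk' i0)
  rw [padicValRat.mul hP (zpow_ne_zero _ hy0), hvP, zero_add, padicValRat.zpow, padicValRat.one]
    at h1
  rcases mul_eq_zero.1 h1 with h2 | h2
  · have h3 := hmi (fun j => k j.castSucc) (fun i => by
      have := hk' i
      rwa [h2, zpow_zero, mul_one] at this)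
    apply hk0
    funext j
    refine Fin.lastCases ?_ (fun j => ?_) j
    · exact h2
    · exact congrFun h3 j
  · exact hv h2

end Pool.Agent.U945.RD
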