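import Pool.Agent.U945.RD.Pol
import Pool.Agent.U945.RD.Rank

set_option autoImplicit false

/-!
# Linear combinations of the logarithms of the values of several rational functions
-/

namespace Pool.Agent.U945.RD

open Polynomial Finset
open Pool.Agent.U945.AP (lg lg_mul lg_zpow lg_one lg_eq_zero alg_exp_lg)
open Pool.Agent.H301R2.SSE (QB mem_QB Lt Lt_one Lt_log Lg mem_Lg)

/-- powers of a transcendental number -/
lemma indep_pow {t : ℂ} (ht : Transcendental ℚ t) (d : ℕ) :
    LinearIndependent QB (Fin.cons 1 (fun i : Fin d => t ^ (i.1 + 1)) : Fin (d + 1) → ℂ) := by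
  have hQB : Algebra.IsAlgebraic ℚ QB := algebraicClosure.isAlgebraic ℚ ℂ
  have ht' : Transcendental QB t := (Algebra.IsAlgebraic.transcendental_iff ℚ QB).1 ht
  have e : (Fin.cons 1 (fun i : Fin d => t ^ (i.1 + 1)) : Fin (d + 1) → ℂ) =
      fun i : Fin (d + 1) => t ^ i.1 := by
    funext i
    refine Fin.cases ?_ (fun i => ?_) i
    · simp
    · simp
  rw [e, Fintype.linearIndependent_iff]
  intro g hg
  have h1 : aeval t (∑ i : Fin (d + 1), C (g i) * X ^ i.1 : QB[X]) = 0 := by
    rw [map_sum, ← hg]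
    apply Finset.sum_congr rfl
    intro i _
    rw [map_mul, aeval_C, map_pow, aeval_X, Algebra.smul_def]
  have h2 := transcendental_iff.1 ht' _ h1
  intro i
  have h3 := congrArg (fun F => F.coeff i.1) h2
  simp only [finsetSum_coeff, coeff_C_mul, coeff_X_pow, coeff_zero] at h3
  rw [Finset.sum_eq_single i] at h3
  · simpa using h3
  · intro j _ hj
    rw [if_neg (fun h => hj (Fin.ext h.symm)), mul_zero]
  · intro h
    exact absurd (mem_univ i) h

/-- logarithms of distinct primes -/
lemma indep_primes {d : ℕ} {p : Fin d → ℕ} (hp : ∀ i, (p i).Prime) (hinj : Function.Injective p) :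
    LinearIndependent QB (Fin.cons 1 (fun i => lg (p i)) : Fin (d + 1) → ℂ) := by
  have hmi : MIv (fun (j : Fin d) (_ : Fin 1) => ((p j : ℕ) : ℚ)) := by
    intro k hk
    funext j
    have : Fact (p j).Prime := ⟨hp j⟩
    have h1 := congrArg (padicValRat (p j)) (hk 0)
    rw [padicValRat.one] at h1
    have h2 : ∀ s : Finset (Fin d), padicValRat (p j) (∏ i ∈ s, ((p i : ℕ) : ℚ) ^ k i) =
        ∑ i ∈ s, k i * padicValRat (p j) (p i : ℚ) := by
      intro s
      induction s using Finset.induction_on with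
      | empty => simp
      | insert a s ha ih =>
        have hne : ∀ i, ((p i : ℕ) : ℚ) ≠ 0 := fun i => by exact_mod_cast (hp i).ne_zero
        rw [Finset.prod_insert ha, Finset.sum_insert ha, padicValRat.mul (zpow_ne_zero _ (hne a))
          (Finset.prod_ne_zero_iff.2 (fun i _ => zpow_ne_zero _ (hne i))), ih, padicValRat.zpow]
    rw [h2, Finset.sum_eq_single j] at h1
    · rw [padicValRat.self (hp j).one_lt, mul_one] at h1
      exact h1
    · intro i _ hij
      have h3 : ¬ p j ∣ p i := fun h => hij (hinj ((Nat.prime_dvd_prime_iff_eq (hp j) (hp i)).1 h).symm)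
      rw [padicValRat.of_nat, padicValNat.eq_zero_of_not_dvd h3]
      simp
    · intro h
      exact absurd (mem_univ j) h
  have hli := indep_vec (fun j _ => by exact_mod_cast (hp j).pos) hmi
  have hli' : LinearIndependent ℚ (fun j => lg (p j)) := by
    have h1 := hli.map' (LinearMap.proj (0 : Fin 1) : (Fin 1 → ℂ) →ₗ[ℚ] ℂ) (by
      rw [LinearMap.ker_eq_bot']
      intro v hv
      funext i
      have : i = 0 := Subsingleton.elim _ _
      rw [this]
      exact hv)
    exact h1
  rw [Fintype.linearIndependent_iff]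
  intro g hg
  rw [Fin.sum_univ_succ] at hg
  simp only [Fin.cons_zero, Fin.cons_succ] at hg
  have hb := Pool.Agent.H297R2.baker_inhom (fun j => lg (p j))
    (fun j => alg_exp_lg (by exact_mod_cast (hp j).pos)) hli' (g 0 : ℂ) (mem_QB.1 (g 0).2)
    (fun j => (g j.succ : ℂ)) (fun j => mem_QB.1 (g j.succ).2) (by
      rw [← hg]
      congr 1
      rw [Algebra.smul_def, mul_one]
      rfl)
  intro i
  refine Fin.cases ?_ (fun i => ?_) i
  · exact Subtype.ext hb.1
  · exact Subtype.ext (hb.2 i)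

/-- **The general theorem.** -/
theorem finite_values {d : ℕ} {P Q : Fin d → ℚ[X]} (hP : ∀ i, P i ≠ 0)
    (hQ : ∀ i, Q i ≠ 0) (hco : ∀ i, IsCoprime (P i) (Q i)) {e : ℕ} (he1 : e ≤ 1)
    (he : (∀ i, (P i).natDegree = (Q i).natDegree) → e = 0)
    (h3 : 3 ≤ Pool.Agent.U945.RV.nr (∏ i, (P i * Q i)) + e) {lam : Fin d → ℂ}
    (hlam : LinearIndependent QB (Fin.cons 1 lam : Fin (d + 1) → ℂ)) (V : Submodule QB ℂ)
    [FiniteDimensional QB V] :
    {q : ℚ | (∀ i, (P i).eval q ≠ 0 ∧ (Q i).eval q ≠ 0) ∧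
      ∑ i, lam i * lg |(P i).eval q / (Q i).eval q| ∈ Lt ⊔ V}.Finite := by
  refine (finite_rat hP hQ hco he1 he h3
    (primes_finite_vec (brv hlam V)).toFinset).subset ?_
  rintro q ⟨h1, h⟩
  refine ⟨h1, fun p hp i hv => ?_⟩
  rw [Set.Finite.mem_toFinset]
  refine ⟨hp, fun i => |(P i).eval q / (Q i).eval q|,
    ⟨fun i => abs_pos.2 (div_ne_zero (h1 i).1 (h1 i).2), h⟩, i, ?_⟩
  rcases abs_choice ((P i).eval q / (Q i).eval q) with h4 | h4
  · simp only [h4]
    exact hv
  · simp only [h4]
    rw [padicValRat.neg]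
    exact hv

end Pool.Agent.U945.RD
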