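import Pool.Agent.U945.RD.Main
import Pool.Agent.U945.RV.Low

set_option autoImplicit false

/-!
# Several rational functions with at most two zeros and poles together
-/

namespace Pool.Agent.U945.RD

open Polynomial Finset
open Pool.Agent.U945.RV (nr mem_rts single_root nr_mul nr_eq_zero nr_of_degree)
open Pool.Agent.U945.AP (lg lg_mul lg_zpow lg_one lg_eq_zero alg_exp_lg)
open Pool.Agent.H301R2.SSE (QB mem_QB Lt Lt_one Lt_log Lg mem_Lg)

/-- polynomials with all roots in a set of two rational numbers -/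
lemma two_roots {α β : ℚ} (n : ℕ) : ∀ G : ℚ[X], G ≠ 0 → G.natDegree = n →
    (∀ z : ℂ, aeval z G = 0 → z = (α : ℂ) ∨ z = (β : ℂ)) →
    ∃ (c : ℚ) (a b : ℕ), c ≠ 0 ∧ a + b = n ∧ G = C c * (X - C α) ^ a * (X - C β) ^ b := by
  induction n with
  | zero =>
    intro G hG hd _
    refine ⟨G.coeff 0, 0, 0, ?_, rfl, ?_⟩
    · intro h1
      apply hG
      rw [eq_C_of_natDegree_eq_zero hd, h1, C_0]
    · rw [pow_zero, pow_zero, mul_one, mul_one]
      exact eq_C_of_natDegree_eq_zero hd
  | succ n ih =>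
    intro G hG hd h
    have hdeg : (G.map (algebraMap ℚ ℂ)).degree ≠ 0 := by
      rw [degree_map, degree_eq_natDegree hG, hd]
      exact_mod_cast Nat.succ_ne_zero n
    obtain ⟨z, hz⟩ := IsAlgClosed.exists_root _ hdeg
    rw [IsRoot.def, eval_map_algebraMap] at hz
    have key : ∀ γ : ℚ, z = (γ : ℂ) → ∃ G' : ℚ[X], G = (X - C γ) * G' := by
      intro γ hγ
      rw [hγ] at hz
      have h1 : aeval (γ : ℂ) G = ((G.eval γ : ℚ) : ℂ) := by
        have := Polynomial.aeval_algebraMap_apply ℂ γ G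
        rw [coe_aeval_eq_eval] at this
        exact this
      rw [h1] at hz
      have h2 : G.eval γ = 0 := by exact_mod_cast hz
      exact dvd_iff_isRoot.2 h2
    have step : ∀ γ : ℚ, (∃ G' : ℚ[X], G = (X - C γ) * G') → ∃ G' : ℚ[X],
        G = (X - C γ) * G' ∧ ∃ (c : ℚ) (a b : ℕ), c ≠ 0 ∧ a + b = n ∧
          G' = C c * (X - C α) ^ a * (X - C β) ^ b := by
      rintro γ ⟨G', hG'⟩
      have hG'0 : G' ≠ 0 := by
        rintro rfl
        rw [mul_zero] at hG'
        exact hG hG'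
      refine ⟨G', hG', ih G' hG'0 ?_ (fun w hw => h w ?_)⟩
      · rw [hG', natDegree_mul (X_sub_C_ne_zero γ) hG'0, natDegree_X_sub_C] at hd
        omega
      · rw [hG', map_mul, hw, mul_zero]
    rcases h z hz with hα | hβ
    · obtain ⟨G', hG', c, a, b, hc, hab, he⟩ := step α (key α hα)
      refine ⟨c, a + 1, b, hc, by omega, ?_⟩
      rw [hG', he]
      ring
    · obtain ⟨G', hG', c, a, b, hc, hab, he⟩ := step β (key β hβ)
      refine ⟨c, a, b + 1, hc, by omega, ?_⟩
      rw [hG', he]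
      ring

/-- **Values of rational functions with at most two zeros and poles together.** -/
theorem low_vec {d : ℕ} {P Q : Fin d → ℚ[X]} (hP : ∀ i, P i ≠ 0)
    (hQ : ∀ i, Q i ≠ 0) (hco : ∀ i, IsCoprime (P i) (Q i)) {e : ℕ}
    (he : e = 0 → ∀ i, (P i).natDegree = (Q i).natDegree)
    (h3 : nr (∏ i, (P i * Q i)) + e < 3) :
    ∃ (c : Fin d → ℚ) (s : Fin d → ℤ) (φ : ℚ → ℚ), (∀ i, c i ≠ 0) ∧ Set.InjOn φ {y | y ≠ 1} ∧
      ∀ y : ℚ, y ≠ 0 → y ≠ 1 → ∀ i, (P i).eval (φ y) ≠ 0 ∧ (Q i).eval (φ y) ≠ 0 ∧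
        (P i).eval (φ y) / (Q i).eval (φ y) = c i * y ^ s i := by
  classical
  have hF : ∏ i, (P i * Q i) ≠ 0 :=
    Finset.prod_ne_zero_iff.2 (fun i _ => mul_ne_zero (hP i) (hQ i))
  set U := ((∏ i, (P i * Q i)).map (algebraMap ℚ ℂ)).roots.toFinset with hU
  have hUm : ∀ z, z ∈ U ↔ ∃ i, aeval z (P i) = 0 ∨ aeval z (Q i) = 0 := by
    intro z
    rw [hU, mem_rts hF, map_prod, Finset.prod_eq_zero_iff]
    constructor
    · rintro ⟨i, _, hi⟩
      rw [map_mul] at hi
      exact ⟨i, mul_eq_zero.1 hi⟩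
    · rintro ⟨i, hi⟩
      exact ⟨i, mem_univ i, by rw [map_mul]; exact mul_eq_zero.2 hi⟩
  have hcard : U.card + e < 3 := h3
  -- the two points
  obtain ⟨α, β, hαβ, hroots, hor⟩ : ∃ α β : ℚ, α ≠ β ∧
      (∀ z ∈ U, z = (α : ℂ) ∨ z = (β : ℂ)) ∧
      ((∀ i, (P i).natDegree = (Q i).natDegree) ∨ (β : ℂ) ∉ U) := by
    by_cases h0 : U.card = 0
    · rw [Finset.card_eq_zero] at h0
      exact ⟨0, 1, by norm_num, fun z hz => absurd hz (by rw [h0]; simp), Or.inr (by rw [h0]; simp)⟩
    have sub1 : ∀ G : ℚ[X], G ≠ 0 → (∀ z, aeval z G = 0 → z ∈ U) → nr G ≤ 1 → nr G ≠ 0 →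
        ∃ α : ℚ, (α : ℂ) ∈ U ∧ ∀ z : ℂ, aeval z G = 0 ↔ z = α := by
      intro G hG hGU hle hne
      obtain ⟨c, α, hc, hGe⟩ := single_root hG hle
      have hd : G.natDegree ≠ 0 := fun h => hne (nr_of_degree h)
      have hiff : ∀ z : ℂ, aeval z G = 0 ↔ z = α := by
        intro z
        rw [hGe, map_mul, map_pow, map_sub, aeval_X, aeval_C, aeval_C]
        have hc' : (algebraMap ℚ ℂ) c ≠ 0 := by simpa using hc
        rw [mul_eq_zero, or_iff_right hc', pow_eq_zero_iff hd, sub_eq_zero]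
        rfl
      exact ⟨α, hGU _ ((hiff _).2 rfl), hiff⟩
    by_cases h1 : U.card = 1
    · -- one point
      obtain ⟨z0, hz0⟩ := Finset.card_eq_one.1 h1
      have hz0U : z0 ∈ U := by rw [hz0]; exact mem_singleton_self _
      have hle : ∀ G : ℚ[X], G ≠ 0 → (∀ z, aeval z G = 0 → z ∈ U) → nr G ≤ 1 := by
        intro G hG hGU
        rw [← h1]
        apply Finset.card_le_card
        intro z hz
        exact hGU z ((mem_rts hG z).1 hz)
      have hα : ∃ α : ℚ, (α : ℂ) ∈ U := by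
        obtain ⟨i, hi | hi⟩ := (hUm z0).1 hz0U
        · have hGU : ∀ z, aeval z (P i) = 0 → z ∈ U := fun z hz => (hUm z).2 ⟨i, Or.inl hz⟩
          obtain ⟨α, h4, -⟩ := sub1 (P i) (hP i) hGU (hle _ (hP i) hGU) (by
            intro h
            have : z0 ∈ ((P i).map (algebraMap ℚ ℂ)).roots.toFinset := (mem_rts (hP i) z0).2 hi
            rw [Finset.card_eq_zero.1 h] at this
            simp at this)
          exact ⟨α, h4⟩
        · have hGU : ∀ z, aeval z (Q i) = 0 → z ∈ U := fun z hz => (hUm z).2 ⟨i, Or.inr hz⟩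
          obtain ⟨α, h4, -⟩ := sub1 (Q i) (hQ i) hGU (hle _ (hQ i) hGU) (by
            intro h
            have : z0 ∈ ((Q i).map (algebraMap ℚ ℂ)).roots.toFinset := (mem_rts (hQ i) z0).2 hi
            rw [Finset.card_eq_zero.1 h] at this
            simp at this)
          exact ⟨α, h4⟩
      obtain ⟨α, hα⟩ := hα
      have hall : ∀ z ∈ U, z = (α : ℂ) := by
        intro z hz
        exact Finset.card_le_one.1 h1.le z hz _ hα
      refine ⟨α, α + 1, by linarith, fun z hz => Or.inl (hall z hz), Or.inr (fun h => ?_)⟩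
      have h5 := hall _ h
      push_cast at h5
      have : (1 : ℂ) = 0 := by linear_combination h5
      exact one_ne_zero this
    · -- two points
      have h2 : U.card = 2 := by omega
      have he0 : e = 0 := by omega
      have hdeg := he he0
      obtain ⟨z0, hz0⟩ := Finset.card_pos.1 (by omega : 0 < U.card)
      obtain ⟨i, hi⟩ := (hUm z0).1 hz0
      have hdP : (P i).natDegree ≠ 0 := by
        intro h
        rcases hi with hi | hi
        · have : z0 ∈ ((P i).map (algebraMap ℚ ℂ)).roots.toFinset := (mem_rts (hP i) z0).2 hi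
          have h4 := nr_of_degree h
          unfold nr at h4
          rw [Finset.card_eq_zero.1 h4] at this
          simp at this
        · have : z0 ∈ ((Q i).map (algebraMap ℚ ℂ)).roots.toFinset := (mem_rts (hQ i) z0).2 hi
          have h4 := nr_of_degree ((hdeg i).symm.trans h)
          unfold nr at h4
          rw [Finset.card_eq_zero.1 h4] at this
          simp at this
      have hdQ : (Q i).natDegree ≠ 0 := by rw [← hdeg i]; exact hdP
      have hP1 : nr (P i) ≠ 0 := fun h => hdP (nr_eq_zero (hP i) h)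
      have hQ1 : nr (Q i) ≠ 0 := fun h => hdQ (nr_eq_zero (hQ i) h)
      have hsum : nr (P i) + nr (Q i) ≤ 2 := by
        rw [← nr_mul (hP i) (hQ i) (hco i), ← h2]
        apply Finset.card_le_card
        intro z hz
        rw [mem_rts (mul_ne_zero (hP i) (hQ i)), map_mul, mul_eq_zero] at hz
        exact (hUm z).2 ⟨i, hz⟩
      obtain ⟨α, hαU, hα⟩ := sub1 (P i) (hP i) (fun z hz => (hUm z).2 ⟨i, Or.inl hz⟩) (by omega) hP1
      obtain ⟨β, hβU, hβ⟩ := sub1 (Q i) (hQ i) (fun z hz => (hUm z).2 ⟨i, Or.inr hz⟩) (by omega) hQ1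
      have hαβ : α ≠ β := by
        rintro rfl
        obtain ⟨u, v, huv⟩ := hco i
        have h4 := congrArg (aeval (α : ℂ)) huv
        rw [map_add, map_mul, map_mul, (hα _).2 rfl, (hβ _).2 rfl, mul_zero, mul_zero, add_zero,
          map_one] at h4
        exact zero_ne_one h4
      refine ⟨α, β, hαβ, fun z hz => ?_, Or.inl hdeg⟩
      by_contra hcon
      push Not at hcon
      have hsub : ({z, (α : ℂ), (β : ℂ)} : Finset ℂ) ⊆ U := by
        intro w hw
        simp only [mem_insert, mem_singleton] at hw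
        rcases hw with rfl | rfl | rfl
        · exact hz
        · exact hαU
        · exact hβU
      have h5 := Finset.card_le_card hsub
      have hαβ' : (α : ℂ) ≠ (β : ℂ) := by exact_mod_cast hαβ
      rw [Finset.card_insert_of_notMem, Finset.card_pair hαβ', h2] at h5
      · omega
      · simp only [mem_insert, mem_singleton, not_or]
        exact hcon
  have repP : ∀ i, ∃ (c : ℚ) (a b : ℕ), c ≠ 0 ∧ a + b = (P i).natDegree ∧
      P i = C c * (X - C α) ^ a * (X - C β) ^ b := fun i =>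
    two_roots _ (P i) (hP i) rfl (fun z hz => hroots z ((hUm z).2 ⟨i, Or.inl hz⟩))
  have repQ : ∀ i, ∃ (c : ℚ) (a b : ℕ), c ≠ 0 ∧ a + b = (Q i).natDegree ∧
      Q i = C c * (X - C α) ^ a * (X - C β) ^ b := fun i =>
    two_roots _ (Q i) (hQ i) rfl (fun z hz => hroots z ((hUm z).2 ⟨i, Or.inr hz⟩))
  choose c a b hc hab hPe using repP
  choose c' a' b' hc' hab' hQe using repQ
  have evP : ∀ i (q : ℚ), (P i).eval q = c i * (q - α) ^ a i * (q - β) ^ b i := by
    intro i q
    conv_lhs => rw [hPe i]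
    simp
  have evQ : ∀ i (q : ℚ), (Q i).eval q = c' i * (q - α) ^ a' i * (q - β) ^ b' i := by
    intro i q
    conv_lhs => rw [hQe i]
    simp
  rcases hor with hdeg | hβ
  · have hsub : α - β ≠ 0 := sub_ne_zero.2 hαβ
    refine ⟨fun i => c i / c' i, fun i => (a i : ℤ) - a' i, fun y => (α - y * β) / (1 - y),
      fun i => div_ne_zero (hc i) (hc' i), ?_, fun y hy0 hy1 i => ?_⟩
    · intro y hy y' hy' h
      have hy1 : 1 - y ≠ 0 := sub_ne_zero.2 (fun h => hy h.symm)
      have hy1' : 1 - y' ≠ 0 := sub_ne_zero.2 (fun h => hy' h.symm)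
      change (α - y * β) / (1 - y) = (α - y' * β) / (1 - y') at h
      rw [div_eq_div_iff hy1 hy1'] at h
      have h5 : (α - β) * (y - y') = 0 := by linear_combination h
      exact sub_eq_zero.1 ((mul_eq_zero.1 h5).resolve_left hsub)
    · have hy1' : 1 - y ≠ 0 := sub_ne_zero.2 (fun h => hy1 h.symm)
      have e1 : (α - y * β) / (1 - y) - α = y * ((α - β) / (1 - y)) := by field_simp; ring
      have e2 : (α - y * β) / (1 - y) - β = (α - β) / (1 - y) := by field_simp; ring
      have hw : (α - β) / (1 - y) ≠ 0 := div_ne_zero hsub hy1'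
      simp only [evP, evQ, e1, e2]
      set w := (α - β) / (1 - y) with hwd
      refine ⟨mul_ne_zero (mul_ne_zero (hc i) (pow_ne_zero _ (mul_ne_zero hy0 hw)))
          (pow_ne_zero _ hw),
        mul_ne_zero (mul_ne_zero (hc' i) (pow_ne_zero _ (mul_ne_zero hy0 hw)))
          (pow_ne_zero _ hw), ?_⟩
      have h6 : w ^ a i * w ^ b i = w ^ a' i * w ^ b' i := by
        rw [← pow_add, ← pow_add, hab i, hab' i, hdeg i]
      rw [zpow_sub₀ hy0, zpow_natCast, zpow_natCast, mul_pow, mul_pow,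
        div_mul_div_comm, div_eq_div_iff]
      · linear_combination (c i * y ^ a i * c' i * y ^ a' i) * h6
      · exact mul_ne_zero (mul_ne_zero (hc' i) (mul_ne_zero (pow_ne_zero _ hy0) (pow_ne_zero _ hw)))
          (pow_ne_zero _ hw)
      · exact mul_ne_zero (hc' i) (pow_ne_zero _ hy0)
  · have hb : ∀ i, b i = 0 := by
      intro i
      by_contra hb
      apply hβ
      refine (hUm _).2 ⟨i, Or.inl ?_⟩
      rw [hPe i, map_mul, map_mul, map_pow, map_pow, map_sub, map_sub, aeval_X, aeval_C, aeval_C,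
        aeval_C]
      have : (β : ℂ) - (algebraMap ℚ ℂ) β = 0 := sub_self _
      rw [this, zero_pow hb, mul_zero]
    have hb' : ∀ i, b' i = 0 := by
      intro i
      by_contra hb
      apply hβ
      refine (hUm _).2 ⟨i, Or.inr ?_⟩
      rw [hQe i, map_mul, map_mul, map_pow, map_pow, map_sub, map_sub, aeval_X, aeval_C, aeval_C,
        aeval_C]
      have : (β : ℂ) - (algebraMap ℚ ℂ) β = 0 := sub_self _
      rw [this, zero_pow hb, mul_zero]
    refine ⟨fun i => c i / c' i, fun i => (a i : ℤ) - a' i, fun y => α + y,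
      fun i => div_ne_zero (hc i) (hc' i), ?_, fun y hy0 hy1 i => ?_⟩
    · intro y _ y' _ h
      exact add_left_cancel h
    · simp only [evP, evQ, hb i, hb' i, pow_zero, mul_one, add_sub_cancel_left]
      refine ⟨mul_ne_zero (hc i) (pow_ne_zero _ hy0), mul_ne_zero (hc' i) (pow_ne_zero _ hy0), ?_⟩
      rw [zpow_sub₀ hy0, zpow_natCast, zpow_natCast, div_mul_div_comm]

/-- infinitely many values -/
theorem low_infinite {d : ℕ} {P Q : Fin d → ℚ[X]} (hP : ∀ i, P i ≠ 0)
    (hQ : ∀ i, Q i ≠ 0) (hco : ∀ i, IsCoprime (P i) (Q i)) {e : ℕ}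
    (he : e = 0 → ∀ i, (P i).natDegree = (Q i).natDegree)
    (h3 : nr (∏ i, (P i * Q i)) + e < 3) (lam : Fin d → ℂ) :
    ∃ V : Submodule QB ℂ, FiniteDimensional QB V ∧
      {q : ℚ | (∀ i, (P i).eval q ≠ 0 ∧ (Q i).eval q ≠ 0) ∧
        ∑ i, lam i * lg |(P i).eval q / (Q i).eval q| ∈ V}.Infinite := by
  obtain ⟨c, s, φ, hc, hφ, hval⟩ := low_vec hP hQ hco he h3
  set T : Set ℂ := Set.range (fun i => lam i * lg |c i|) ∪ Set.range (fun i => lam i * lg 2) with hT
  have hTf : T.Finite := (Set.finite_range _).union (Set.finite_range _)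
  refine ⟨Submodule.span QB T, FiniteDimensional.span_of_finite QB hTf, ?_⟩
  have hpow : ∀ j : ℕ, (2 : ℚ) ^ (j + 1) ≠ 1 := by
    intro j h
    have := (pow_eq_one_iff_of_nonneg (by norm_num : (0 : ℚ) ≤ 2) (by omega : j + 1 ≠ 0)).1 h
    norm_num at this
  refine Set.infinite_of_injective_forall_mem (f := fun j : ℕ => φ (2 ^ (j + 1))) ?_ (fun j => ?_)
  · intro i j hij
    have h1 := hφ (hpow i) (hpow j) hij
    have := pow_right_injective₀ (by norm_num : (0 : ℚ) < 2) (by norm_num : (2 : ℚ) ≠ 1) h1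
    omega
  · have h1 := hval (2 ^ (j + 1)) (by positivity) (hpow j)
    refine ⟨fun i => ⟨(h1 i).1, (h1 i).2.1⟩, ?_⟩
    refine Submodule.sum_mem _ (fun i _ => ?_)
    have h2 : lg |(P i).eval (φ (2 ^ (j + 1))) / (Q i).eval (φ (2 ^ (j + 1)))| =
        lg |c i| + ((s i * (j + 1) : ℤ) : ℂ) * lg 2 := by
      rw [(h1 i).2.2, abs_mul, lg_mul (abs_ne_zero.2 (hc i)) (abs_ne_zero.2
        (zpow_ne_zero _ (by positivity))), abs_zpow, lg_zpow,
        abs_of_pos (by positivity : (0 : ℚ) < 2 ^ (j + 1)), ← zpow_natCast (2 : ℚ) (j + 1), lg_zpow]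
      push_cast
      ring
    rw [h2, mul_add]
    refine Submodule.add_mem _ (Submodule.subset_span (Or.inl ⟨i, rfl⟩)) ?_
    have h4 := Submodule.smul_mem (Submodule.span QB T) ((s i * (j + 1) : ℤ) : QB)
      (Submodule.subset_span (Or.inr ⟨i, rfl⟩))
    rw [Algebra.smul_def, map_intCast] at h4
    convert h4 using 1
    ring

end Pool.Agent.U945.RD
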