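import Pool.Agent.U945.RV.Rat

set_option autoImplicit false

/-!
# Values of several rational functions composed of given primes
-/

namespace Pool.Agent.U945.RD

open Polynomial Finset UniqueFactorizationMonoid
open Pool.Agent.W4.VC (hom Sqf)
open Pool.Agent.U945.RV (coe_aeval norm_aeval_le norm_aeval_big hom_eq norm_eq_one_of nr rad_degree
  clear eval_of_map)

section loc

variable {p : ℕ} [hp : Fact p.Prime]

lemma norm_of_val {x : ℚ} (hx : x ≠ 0) (hv : padicValRat p x = 0) : ‖((x : ℚ) : ℚ_[p])‖ = 1 := by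
  rw [Padic.eq_padicNorm, padicNorm.eq_zpow_of_nonzero hx, hv]
  simp

lemma norm_eq_of_val {P Q : ℤ[X]} {q : ℚ} (hP : aeval q P ≠ 0) (hQ : aeval q Q ≠ 0)
    (hv : padicValRat p (aeval q P / aeval q Q) = 0) :
    ‖aeval (q : ℚ_[p]) P‖ = ‖aeval (q : ℚ_[p]) Q‖ := by
  have h1 := norm_of_val (p := p) (div_ne_zero hP hQ) hv
  rw [Rat.cast_div, coe_aeval, coe_aeval, norm_div] at h1
  have hQ' : aeval (q : ℚ_[p]) Q ≠ 0 := by
    rw [← coe_aeval]
    exact_mod_cast hQ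
  rw [div_eq_one_iff_eq (norm_ne_zero_iff.2 hQ')] at h1
  exact h1

/-- the case of a prime which does not divide the denominator -/
lemma int_case {P Q U V : ℤ[X]} {k : ℤ} (hUV : P * U + Q * V = C k) (hk : ¬ (p : ℤ) ∣ k) {q : ℚ}
    (hP : aeval q P ≠ 0) (hQ : aeval q Q ≠ 0)
    (hv : padicValRat p (aeval q P / aeval q Q) = 0) (hpb : ¬ p ∣ q.den) :
    ‖aeval (q : ℚ_[p]) P‖ = 1 ∧ ‖aeval (q : ℚ_[p]) Q‖ = 1 := by
  have h2 := norm_eq_of_val (p := p) hP hQ hv
  set z : ℚ_[p] := (q : ℚ_[p]) with hz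
  have hz1 : ‖z‖ ≤ 1 := by
    rw [hz]
    exact Padic.norm_rat_le_one hpb
  have h5 := congrArg (aeval z) hUV
  rw [map_add, map_mul, map_mul, aeval_C] at h5
  have hkn : ‖(algebraMap ℤ ℚ_[p]) k‖ = 1 := norm_eq_one_of hk
  have h6 : ‖aeval z P * aeval z U + aeval z Q * aeval z V‖ ≤ ‖aeval z Q‖ := by
    refine (IsUltrametricDist.norm_add_le_max _ _).trans (max_le ?_ ?_)
    · rw [norm_mul, h2]
      exact mul_le_of_le_one_right (norm_nonneg _) (norm_aeval_le hz1 U)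
    · rw [norm_mul]
      exact mul_le_of_le_one_right (norm_nonneg _) (norm_aeval_le hz1 V)
  rw [h5, hkn] at h6
  have h7 : ‖aeval z Q‖ = 1 := le_antisymm (norm_aeval_le hz1 Q) h6
  exact ⟨h2.trans h7, h7⟩

/-- the norm of a rational number with denominator divisible by `p` -/
lemma big_of_dvd {q : ℚ} (hpb : p ∣ q.den) :
    1 < ‖(q : ℚ_[p])‖ ∧ ‖((q.den : ℤ) : ℚ_[p])‖ * ‖(q : ℚ_[p])‖ = 1 := by
  have hpa : ¬ (p : ℤ) ∣ q.num := by
    intro hpa
    have h3 : p ∣ q.num.natAbs := Int.natCast_dvd.1 hpa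
    have := Nat.dvd_gcd h3 hpb
    rw [q.reduced] at this
    exact hp.out.one_lt.ne' (Nat.dvd_one.1 this)
  have hden : ((q.den : ℤ)) ≠ 0 := by exact_mod_cast q.den_nz
  have hna : ‖((q.num : ℤ) : ℚ_[p])‖ = 1 := norm_eq_one_of hpa
  have hnb : ‖((q.den : ℤ) : ℚ_[p])‖ < 1 :=
    Padic.norm_intCast_lt_one_iff.2 (by exact_mod_cast hpb)
  have hnb0 : 0 < ‖((q.den : ℤ) : ℚ_[p])‖ := norm_pos_iff.2 (by exact_mod_cast hden)
  have hzq : ((q.den : ℤ) : ℚ_[p]) * (q : ℚ_[p]) = ((q.num : ℤ) : ℚ_[p]) := by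
    have h3 : ((q.den : ℤ) : ℚ) * q = q.num := by
      push_cast
      exact Rat.den_mul_eq_num q
    have h4 := congrArg (fun x : ℚ => (x : ℚ_[p])) h3
    push_cast at h4
    exact_mod_cast h4
  have h5 : ‖((q.den : ℤ) : ℚ_[p])‖ * ‖(q : ℚ_[p])‖ = 1 := by rw [← norm_mul, hzq, hna]
  refine ⟨?_, h5⟩
  by_contra hcon
  push Not at hcon
  nlinarith [norm_nonneg (q : ℚ_[p])]

/-- the case of a prime which divides the denominator -/
lemma den_case {P Q : ℤ[X]} (hPl : ¬ (p : ℤ) ∣ P.leadingCoeff) (hQl : ¬ (p : ℤ) ∣ Q.leadingCoeff)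
    {q : ℚ} (hP : aeval q P ≠ 0) (hQ : aeval q Q ≠ 0)
    (hv : padicValRat p (aeval q P / aeval q Q) = 0) (hpb : p ∣ q.den) :
    P.natDegree = Q.natDegree := by
  have h2 := norm_eq_of_val (p := p) hP hQ hv
  obtain ⟨hz1, -⟩ := big_of_dvd hpb
  rw [norm_aeval_big hz1 P (norm_eq_one_of hPl), norm_aeval_big hz1 Q (norm_eq_one_of hQl)] at h2
  exact pow_right_injective₀ (by positivity) hz1.ne' h2

end loc

/-- **The local analysis**, for several rational functions. -/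
theorem val_ne {ι : Type*} [Fintype ι] {p : ℕ} [hp : Fact p.Prime] {P Q U V : ι → ℤ[X]}
    {f g : ℤ[X]} {k : ι → ℤ} {c : ℤ} (hUV : ∀ i, P i * U i + Q i * V i = C (k i))
    (hfg : f * g = C c * ∏ i, (P i * Q i)) {n : ℕ} (hfn : f.natDegree ≤ n)
    (hn : (∀ i, (P i).natDegree = (Q i).natDegree) → n = f.natDegree)
    (hk : ∀ i, ¬ (p : ℤ) ∣ k i) (hc : ¬ (p : ℤ) ∣ c) (hf : ¬ (p : ℤ) ∣ f.leadingCoeff)
    (hPl : ∀ i, ¬ (p : ℤ) ∣ (P i).leadingCoeff) (hQl : ∀ i, ¬ (p : ℤ) ∣ (Q i).leadingCoeff)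
    (q : ℚ) (hP : ∀ i, aeval q (P i) ≠ 0) (hQ : ∀ i, aeval q (Q i) ≠ 0)
    (hd : (p : ℤ) ∣ hom f n q.num q.den) :
    ∃ i, padicValRat p (aeval q (P i) / aeval q (Q i)) ≠ 0 := by
  by_contra hcon
  push Not at hcon
  have hden : ((q.den : ℤ)) ≠ 0 := by exact_mod_cast q.den_nz
  have hhom := hom_eq f hfn q.num q.den hden
  have hqq : (q.num : ℚ) / ((q.den : ℤ) : ℚ) = q := by
    push_cast
    exact Rat.num_div_den q
  rw [hqq] at hhom
  have hhom' : ((hom f n q.num q.den : ℤ) : ℚ_[p]) =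
      ((q.den : ℤ) : ℚ_[p]) ^ n * aeval (q : ℚ_[p]) f := by
    rw [← coe_aeval]
    exact_mod_cast congrArg (fun x : ℚ => (x : ℚ_[p])) hhom
  have hlt : ‖((hom f n q.num q.den : ℤ) : ℚ_[p])‖ < 1 := Padic.norm_intCast_lt_one_iff.2 hd
  by_cases hpb : p ∣ q.den
  · have hdeg := hn (fun i => den_case (hPl i) (hQl i) (hP i) (hQ i) (hcon i) hpb)
    obtain ⟨hz1, h5⟩ := big_of_dvd hpb
    rw [hhom', norm_mul, norm_pow, norm_aeval_big hz1 f (norm_eq_one_of hf), hdeg, ← mul_pow, h5,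
      one_pow] at hlt
    exact lt_irrefl _ hlt
  · have hnb : ‖((q.den : ℤ) : ℚ_[p])‖ = 1 :=
      norm_eq_one_of (fun h => hpb (by exact_mod_cast h))
    have hz1 : ‖(q : ℚ_[p])‖ ≤ 1 := Padic.norm_rat_le_one hpb
    rw [hhom', norm_mul, norm_pow, hnb, one_pow, one_mul] at hlt
    have h3 := congrArg (aeval (q : ℚ_[p])) hfg
    rw [map_mul, map_mul, map_prod, aeval_C] at h3
    have h4 := congrArg norm h3
    rw [norm_mul, norm_mul, norm_prod] at h4
    have hcn : ‖(algebraMap ℤ ℚ_[p]) c‖ = 1 := norm_eq_one_of hc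
    have h6 : ∏ i, ‖aeval (q : ℚ_[p]) (P i * Q i)‖ = 1 := by
      apply Finset.prod_eq_one
      intro i _
      obtain ⟨h7, h8⟩ := int_case (hUV i) (hk i) (hP i) (hQ i) (hcon i) hpb
      rw [map_mul, norm_mul, h7, h8, one_mul]
    rw [hcn, h6, one_mul] at h4
    have h8 : ‖aeval (q : ℚ_[p]) f‖ * ‖aeval (q : ℚ_[p]) g‖ < 1 := by
      have := norm_aeval_le hz1 g
      nlinarith [norm_nonneg (aeval (q : ℚ_[p]) f), norm_nonneg (aeval (q : ℚ_[p]) g)]
    rw [h4] at h8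
    exact lt_irrefl _ h8

/-- **Finiteness**, for integer polynomials -/
theorem finite_int {ι : Type*} [Fintype ι] {P Q U V : ι → ℤ[X]} {f g : ℤ[X]} {k : ι → ℤ} {c : ℤ}
    (hk : ∀ i, k i ≠ 0) (hc : c ≠ 0) (hP0 : ∀ i, P i ≠ 0)
    (hQ0 : ∀ i, Q i ≠ 0) (hUV : ∀ i, P i * U i + Q i * V i = C (k i))
    (hfg : f * g = C c * ∏ i, (P i * Q i)) {n : ℕ} (hfn : f.natDegree ≤ n)
    (hfn' : n ≤ f.natDegree + 1)
    (hn : (∀ i, (P i).natDegree = (Q i).natDegree) → n = f.natDegree) (hn3 : 3 ≤ n)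
    (hf : Squarefree (f.map (Int.castRingHom ℚ))) (S : Finset ℕ) :
    {q : ℚ | (∀ i, aeval q (P i) ≠ 0 ∧ aeval q (Q i) ≠ 0) ∧
      ∀ p : ℕ, p.Prime → ∀ i, padicValRat p (aeval q (P i) / aeval q (Q i)) ≠ 0 → p ∈ S}.Finite := by
  classical
  have hprod : ∏ i, (P i * Q i) ≠ 0 :=
    Finset.prod_ne_zero_iff.2 (fun i _ => mul_ne_zero (hP0 i) (hQ0 i))
  have hf0 : f ≠ 0 := by
    rintro rfl
    rw [zero_mul] at hfg
    exact mul_ne_zero (C_ne_zero.2 hc) hprod hfg.symm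
  have hsq : Sqf f n := ⟨hf, hfn, hfn'⟩
  set M : ℤ := (∏ i, (k i * (P i).leadingCoeff * (Q i).leadingCoeff)) * c * f.leadingCoeff with hM
  have hM0 : M ≠ 0 := by
    rw [hM]
    exact mul_ne_zero (mul_ne_zero (Finset.prod_ne_zero_iff.2 (fun i _ =>
      mul_ne_zero (mul_ne_zero (hk i) (leadingCoeff_ne_zero.2 (hP0 i)))
        (leadingCoeff_ne_zero.2 (hQ0 i)))) hc) (leadingCoeff_ne_zero.2 hf0)
  obtain ⟨B, -, hB⟩ := Pool.Agent.TH498.HF.TM f n hsq hn3 M.natAbs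
    (Nat.one_le_iff_ne_zero.2 (Int.natAbs_ne_zero.2 hM0))
  by_contra hinf
  obtain ⟨s, hs, hcard⟩ := Set.Infinite.exists_subset_card_eq hinf (B ^ (S.card + 1) + 1)
  have h1 := hB S (s.image (fun q : ℚ => (q.num, (q.den : ℤ)))) (by
    intro x hx
    rw [Finset.mem_image] at hx
    obtain ⟨q, hq, rfl⟩ := hx
    obtain ⟨hqPQ, hqS⟩ := hs hq
    have hden : ((q.den : ℤ)) ≠ 0 := by exact_mod_cast q.den_nz
    refine ⟨?_, ?_, ?_⟩
    · rw [Int.isCoprime_iff_gcd_eq_one]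
      exact q.reduced
    · intro h0
      have h2 := hom_eq f hfn q.num q.den hden
      have hqq : (q.num : ℚ) / ((q.den : ℤ) : ℚ) = q := by
        push_cast
        exact Rat.num_div_den q
      rw [hqq] at h2
      change ((hom f n q.num q.den : ℤ)) = 0 at h0
      rw [h0, Int.cast_zero] at h2
      have h3 : aeval q f = 0 := by
        rcases mul_eq_zero.1 h2.symm with h | h
        · exact absurd h (pow_ne_zero _ (by exact_mod_cast hden))
        · exact h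
      have h4 := congrArg (aeval q) hfg
      rw [map_mul, h3, zero_mul, map_mul, map_prod, aeval_C] at h4
      refine mul_ne_zero (by simpa using hc : (algebraMap ℤ ℚ) c ≠ 0)
        (Finset.prod_ne_zero_iff.2 (fun i _ => ?_)) h4.symm
      rw [map_mul]
      exact mul_ne_zero (hqPQ i).1 (hqPQ i).2
    · intro p hp hpd
      have : Fact p.Prime := ⟨hp⟩
      by_cases hpM : p ∣ M.natAbs
      · exact Or.inr hpM
      · left
        have hpM' : ¬ (p : ℤ) ∣ M := fun h => hpM (Int.natCast_dvd.1 h)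
        have hpi : ∀ i, ¬ (p : ℤ) ∣ k i * (P i).leadingCoeff * (Q i).leadingCoeff := by
          intro i h
          apply hpM'
          rw [hM]
          exact ((h.trans (Finset.dvd_prod_of_mem
            (fun i => k i * (P i).leadingCoeff * (Q i).leadingCoeff)
            (Finset.mem_univ i))).mul_right _).mul_right _
        obtain ⟨i, hi⟩ := val_ne (p := p) hUV hfg hfn hn
          (fun i h => hpi i ((h.mul_right _).mul_right _))
          (fun h => hpM' (by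
            rw [hM]
            exact (h.mul_left _).mul_right _))
          (fun h => hpM' (by
            rw [hM]
            exact h.mul_left _))
          (fun i h => hpi i ((h.mul_left _).mul_right _))
          (fun i h => hpi i (h.mul_left _)) q (fun i => (hqPQ i).1) (fun i => (hqPQ i).2)
          (Int.natCast_dvd.2 hpd)
        exact hqS p hp i hi)
  rw [Finset.card_image_of_injective, hcard] at h1
  · omega
  · intro q q' h
    rw [Prod.mk.injEq] at h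
    exact Rat.ext h.1 (by exact_mod_cast h.2)

/-- **Finiteness**, for rational functions with at least three zeros and poles together -/
theorem finite_rat {ι : Type*} [Fintype ι] {P Q : ι → ℚ[X]} (hP : ∀ i, P i ≠ 0)
    (hQ : ∀ i, Q i ≠ 0) (hco : ∀ i, IsCoprime (P i) (Q i)) {e : ℕ} (he1 : e ≤ 1)
    (he : (∀ i, (P i).natDegree = (Q i).natDegree) → e = 0)
    (h3 : 3 ≤ nr (∏ i, (P i * Q i)) + e) (S : Finset ℕ) :
    {q : ℚ | (∀ i, (P i).eval q ≠ 0 ∧ (Q i).eval q ≠ 0) ∧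
      ∀ p : ℕ, p.Prime → ∀ i, padicValRat p ((P i).eval q / (Q i).eval q) ≠ 0 → p ∈ S}.Finite := by
  classical
  choose u v huv using hco
  have hPQ : ∏ i, (P i * Q i) ≠ 0 :=
    Finset.prod_ne_zero_iff.2 (fun i _ => mul_ne_zero (hP i) (hQ i))
  obtain ⟨G, hG⟩ := radical_dvd_self (a := ∏ i, (P i * Q i))
  choose b1 hb1 P' hP' using fun i => clear (P i)
  choose b2 hb2 Q' hQ' using fun i => clear (Q i)
  choose b3 hb3 u' hu' using fun i => clear (u i)
  choose b4 hb4 v' hv' using fun i => clear (v i)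
  obtain ⟨b5, hb5, f, hf⟩ := clear (radical (∏ i, (P i * Q i)))
  obtain ⟨b6, hb6, G', hG'⟩ := clear G
  have hinj : Function.Injective (Polynomial.map (Int.castRingHom ℚ)) :=
    map_injective _ Int.cast_injective
  have hP2 : ∀ i, (C (b2 i) * P' i).map (Int.castRingHom ℚ) =
      C ((b1 i * b2 i : ℤ) : ℚ) * P i := by
    intro i
    rw [Polynomial.map_mul, Polynomial.map_C, hP']
    push_cast
    rw [C_mul, eq_intCast]
    ring
  have hQ2 : ∀ i, (C (b1 i) * Q' i).map (Int.castRingHom ℚ) =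
      C ((b1 i * b2 i : ℤ) : ℚ) * Q i := by
    intro i
    rw [Polynomial.map_mul, Polynomial.map_C, hQ']
    push_cast
    rw [C_mul, eq_intCast]
    ring
  have hN : ∀ i, b1 i * b2 i ≠ 0 := fun i => mul_ne_zero (hb1 i) (hb2 i)
  have hNQ : ∀ i, (((b1 i * b2 i : ℤ)) : ℚ) ≠ 0 := fun i => by exact_mod_cast hN i
  have hd : ∀ {F : ℚ[X]} {F' : ℤ[X]} {b : ℤ}, b ≠ 0 →
      F'.map (Int.castRingHom ℚ) = C (b : ℚ) * F → F'.natDegree = F.natDegree := by
    intro F F' b hb h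
    rw [← natDegree_map_eq_of_injective (f := Int.castRingHom ℚ) Int.cast_injective F', h,
      natDegree_C_mul (by exact_mod_cast hb)]
  have hne : ∀ {F : ℚ[X]} {F' : ℤ[X]} {b : ℤ}, b ≠ 0 →
      F'.map (Int.castRingHom ℚ) = C (b : ℚ) * F → F ≠ 0 → F' ≠ 0 := by
    intro F F' b hb h hF hF'
    rw [hF', Polynomial.map_zero] at h
    exact mul_ne_zero (C_ne_zero.2 (by exact_mod_cast hb)) hF h.symm
  have hf1 := hd hb5 hf
  rw [rad_degree hPQ] at hf1
  refine (finite_int (P := fun i => C (b2 i) * P' i) (Q := fun i => C (b1 i) * Q' i) (f := f)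
    (g := C (∏ i, (b1 i * b2 i) ^ 2) * G')
    (U := fun i => C (b4 i) * u' i) (V := fun i => C (b3 i) * v' i)
    (k := fun i => b1 i * b2 i * b3 i * b4 i) (c := b5 * b6)
    (fun i => mul_ne_zero (mul_ne_zero (hN i) (hb3 i)) (hb4 i)) (mul_ne_zero hb5 hb6)
    (fun i => hne (hN i) (hP2 i) (hP i)) (fun i => hne (hN i) (hQ2 i) (hQ i))
    (fun i => ?_) ?_ (n := f.natDegree + e) (Nat.le_add_right _ _) (by omega) ?_ ?_ ?_ S).subset ?_
  · apply hinj
    simp only [Polynomial.map_add, Polynomial.map_mul, Polynomial.map_C, hP', hQ', hu', hv']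
    simp only [eq_intCast, Int.cast_mul, C_mul]
    linear_combination (C (b1 i : ℚ) * C (b2 i : ℚ) * C (b3 i : ℚ) * C (b4 i : ℚ)) * huv i
  · apply hinj
    have h7 : ∏ i, (C (((b1 i * b2 i : ℤ)) : ℚ) * P i * (C (((b1 i * b2 i : ℤ)) : ℚ) * Q i)) =
        C (((∏ i, (b1 i * b2 i) ^ 2 : ℤ)) : ℚ) * ∏ i, (P i * Q i) := by
      push_cast
      rw [map_prod, ← Finset.prod_mul_distrib]
      apply Finset.prod_congr rfl
      intro i _
      rw [C_pow]
      ring
    have h8 : (∏ i, (C (b2 i) * P' i * (C (b1 i) * Q' i))).map (Int.castRingHom ℚ) =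
        C (((∏ i, (b1 i * b2 i) ^ 2 : ℤ)) : ℚ) * ∏ i, (P i * Q i) := by
      rw [← h7, Polynomial.map_prod]
      apply Finset.prod_congr rfl
      intro i _
      rw [Polynomial.map_mul, hP2, hQ2]
    rw [Polynomial.map_mul, Polynomial.map_mul, Polynomial.map_mul, h8, hf, hG', Polynomial.map_C,
      Polynomial.map_C, eq_intCast, eq_intCast]
    rw [Int.cast_mul, C_mul]
    linear_combination (-C (b5 : ℚ) * C (b6 : ℚ) * C (((∏ i, (b1 i * b2 i) ^ 2 : ℤ)) : ℚ)) * hG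
  · intro h
    have h7 : e = 0 := he (fun i => by
      have := h i
      rw [hd (hN i) (hP2 i), hd (hN i) (hQ2 i)] at this
      exact this)
    rw [h7, add_zero]
  · rw [hf1]
    exact h3
  · rw [hf]
    refine Squarefree.squarefree_of_dvd ?_ (squarefree_radical (a := ∏ i, (P i * Q i)))
    refine ⟨C ((b5 : ℚ)⁻¹), ?_⟩
    have : C (b5 : ℚ) * C ((b5 : ℚ)⁻¹) = 1 := by
      rw [← C_mul, mul_inv_cancel₀ (by exact_mod_cast hb5), C_1]
    linear_combination (-radical (∏ i, (P i * Q i))) * this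
  · rintro q ⟨h1, h⟩
    have e1 := fun i => eval_of_map (hP2 i) q
    have e2 := fun i => eval_of_map (hQ2 i) q
    refine ⟨fun i => ⟨?_, ?_⟩, fun p hp i hi => ?_⟩
    · rw [e1]
      exact mul_ne_zero (hNQ i) (h1 i).1
    · rw [e2]
      exact mul_ne_zero (hNQ i) (h1 i).2
    · rw [e1, e2, mul_div_mul_left _ _ (hNQ i)] at hi
      exact h p hp i hi

end Pool.Agent.U945.RD
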